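import Pool.Agent.X63.SemiCount
import Pool.Agent.X63.SemiUpper3

/-!
The maximum number of edges of semi-arc `k`-visibility graphs.
-/

set_option autoImplicit false

namespace Pool.Agent.Results.MP_5402c6_co.ManyEdges

open Pool.Agent.X63

/-- the numbers of edges of the semi-arc `k`-visibility graphs on `n` vertices; `e_k(n)` is the
greatest element of this set -/
def EdgeCounts (k n : ℕ) : Set ℕ :=
  {e | ∃ G : SimpleGraph (Fin n), IsSemiArcVis k G ∧ G.edgeSet.ncard = e}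

/-- Write `U = (k + 1) (4 n - k - 2) / 2 = (k + 1) (2 n - (k + 2) / 2)`.
(1) `e_k(n) = U` for `n ≥ 5 k + 5`.
(2) `e_k(n) = U - 1` for `n = 5 k + 4`, and
(3) `e_k(n) = U - 2` for `n = 5 k + 3`, `k ≥ 1`.
(4) `e_k(n) = n (n - 1) / 2` for `n = 3 k + 4`.
(5) For `n ≥ 3 k + 4` there is such a graph with at least `U - ⌊(x + 1)² / 4⌋` edges, where
`x = max (5 k + 5 - n, 0)`; it has at least `k + 1` edges more than the conjectured maximum
`(k + 1) (2 n - (3 k + 6) / 2)`.
(6) For `n ≥ k + 1` all such graphs have at most `U - min (k + 1, x)` edges. -/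
theorem result :
    (∀ k n : ℕ, 5 * k + 5 ≤ n → IsGreatest (EdgeCounts k n) ((k + 1) * (4 * n - k - 2) / 2)) ∧
    (∀ k n : ℕ, n = 5 * k + 4 → IsGreatest (EdgeCounts k n) ((k + 1) * (4 * n - k - 2) / 2 - 1)) ∧
    (∀ k n : ℕ, 1 ≤ k → n = 5 * k + 3 →
      IsGreatest (EdgeCounts k n) ((k + 1) * (4 * n - k - 2) / 2 - 2)) ∧
    (∀ k n : ℕ, n = 3 * k + 4 → IsGreatest (EdgeCounts k n) (n * (n - 1) / 2)) ∧
    (∀ k n : ℕ, 3 * k + 4 ≤ n → ∃ e ∈ EdgeCounts k n,
      (k + 1) * (4 * n) ≤ 2 * e + (k + 1) * (k + 2) + 2 * ((5 * k + 5 - n + 1) ^ 2 / 4) ∧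
      (k + 1) * (4 * n) + 2 * (k + 1) ≤ 2 * e + (k + 1) * (3 * k + 6)) ∧
    (∀ k n : ℕ, k + 1 ≤ n → ∀ e ∈ EdgeCounts k n,
      2 * e + (k + 1) * (k + 2) + 2 * min (k + 1) (5 * k + 5 - n) ≤ (k + 1) * (4 * n)) := by
  have low : ∀ k n : ℕ, 3 * k + 4 ≤ n → ∃ e ∈ EdgeCounts k n,
      (k + 1) * (4 * n) ≤ 2 * e + (k + 1) * (k + 2) + 2 * ((5 * k + 5 - n + 1) ^ 2 / 4) ∧
      (k + 1) * (4 * n) + 2 * (k + 1) ≤ 2 * e + (k + 1) * (3 * k + 6) := by
    intro k n hn
    obtain ⟨x, hx⟩ : ∃ x, x = 5 * k + 5 - n := ⟨_, rfl⟩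
    have hx1 : x ≤ 2 * k + 1 := by omega
    rw [← hx]
    obtain ⟨y, z, hyz, hy, hz, hT⟩ : ∃ y z, y + z = x ∧ y ≤ k + 1 ∧ z ≤ k ∧
        y * (y + 1) + z * (z + 1) = 2 * ((x + 1) ^ 2 / 4) := by
      rcases Nat.even_or_odd' x with ⟨m, h | h⟩
      · refine ⟨m, m, by omega, by omega, by omega, ?_⟩
        have h1 : (x + 1) ^ 2 / 4 = m * (m + 1) := by
          rw [h]
          have : (2 * m + 1) ^ 2 = 4 * (m * (m + 1)) + 1 := by ring
          omega
        rw [h1]
        ring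
      · refine ⟨m + 1, m, by omega, by omega, by omega, ?_⟩
        have h1 : (x + 1) ^ 2 / 4 = (m + 1) ^ 2 := by
          rw [h]
          have : (2 * m + 1 + 1) ^ 2 = 4 * ((m + 1) ^ 2) := by ring
          omega
        rw [h1]
        ring
    have hb : (x + 1) ^ 2 / 4 ≤ (k + 1) ^ 2 := by
      have h1 : (x + 1) ^ 2 ≤ (2 * k + 2) ^ 2 := Nat.pow_le_pow_left (by omega) 2
      have h2 : (2 * k + 2) ^ 2 = 4 * (k + 1) ^ 2 := by ring
      omega
    have he := SC.edges_gr k n y z (2 * k + 2 - y - z) (by omega) hy hz (by omega)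
    refine ⟨_, ⟨SC.gr k n y z (2 * k + 2 - y - z), SG.graph_semi (SC.tau_lt n y z _) k, rfl⟩,
      ?_, ?_⟩
    · nlinarith
    · nlinarith
  have up : ∀ k n : ℕ, k + 1 ≤ n → ∀ e ∈ EdgeCounts k n,
      2 * e + (k + 1) * (k + 2) + 2 * min (k + 1) (5 * k + 5 - n) ≤ (k + 1) * (4 * n) := by
    rintro k n hn e ⟨G, hG, rfl⟩
    have h := SU.upper' G hG (by rw [Fintype.card_fin]; exact hn)
    rw [Fintype.card_fin] at h
    linarith
  -- a loss of exactly `d`
  have exact_val : ∀ k n d : ℕ, 3 * k + 4 ≤ n → (5 * k + 5 - n + 1) ^ 2 / 4 = d →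
      min (k + 1) (5 * k + 5 - n) = d →
      IsGreatest (EdgeCounts k n) ((k + 1) * (4 * n - k - 2) / 2 - d) := by
    intro k n d hn hd1 hd2
    obtain ⟨e, he, h1, h2⟩ := low k n hn
    have h3 := up k n (by omega) e he
    rw [hd1] at h1
    rw [hd2] at h3
    obtain ⟨m, hm⟩ : ∃ m, 4 * n = m + (k + 2) := ⟨4 * n - k - 2, by omega⟩
    have h5 : 4 * n - k - 2 = m := by omega
    rw [hm] at h1 h3
    have h6 : (k + 1) * m = 2 * (e + d) := by nlinarith
    have hval : (k + 1) * (4 * n - k - 2) / 2 - d = e := by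
      rw [h5, h6]
      omega
    rw [hval]
    refine ⟨he, fun e' he' => ?_⟩
    have h7 := up k n (by omega) e' he'
    rw [hm, hd2] at h7
    nlinarith
  refine ⟨fun k n hn => ?_, fun k n hn => ?_, fun k n hk hn => ?_, fun k n hn => ?_, low, up⟩
  · have h := exact_val k n 0 (by omega) (by
      have h4 : 5 * k + 5 - n = 0 := by omega
      rw [h4]
      norm_num) (by omega)
    simpa using h
  · exact exact_val k n 1 (by omega) (by
      have h4 : 5 * k + 5 - n = 1 := by omega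
      rw [h4]
      norm_num) (by omega)
  · exact exact_val k n 2 (by omega) (by
      have h4 : 5 * k + 5 - n = 2 := by omega
      rw [h4]
      norm_num) (by omega)
  · obtain ⟨e, he, h1, _⟩ := low k n (by omega)
    have hall : ∀ e ∈ EdgeCounts k n, e ≤ n * (n - 1) / 2 := by
      rintro e ⟨G, _, rfl⟩
      classical
      have h := G.card_edgeFinset_le_card_choose_two
      rw [Fintype.card_fin, Nat.choose_two_right] at h
      rwa [← SimpleGraph.coe_edgeFinset, Set.ncard_coe_finset]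
    have h4 : (5 * k + 5 - n + 1) ^ 2 / 4 = (k + 1) ^ 2 := by
      have : 5 * k + 5 - n + 1 = 2 * (k + 1) := by omega
      rw [this, mul_pow]
      omega
    have h5 : n * (n - 1) / 2 ≤ e := by
      rw [h4] at h1
      have h6 : n - 1 = 3 * k + 3 := by omega
      rw [h6, hn]
      rw [hn] at h1
      have h7 : (3 * k + 4) * (3 * k + 3) ≤ 2 * e := by nlinarith
      omega
    have h6 : n * (n - 1) / 2 = e := le_antisymm h5 (hall e he)
    rw [h6]
    refine ⟨he, fun e' he' => ?_⟩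
    rw [← h6]
    exact hall e' he'

end Pool.Agent.Results.MP_5402c6_co.ManyEdges
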